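import Mathlib
import Pool.Agent.Q102.DSFMain

/-!
# `D(G)` can be infinite

There is a finite graph `G` (with 12 vertices) such that `D(G)` contains infinitely many pairwise
non-isomorphic graphs. The definitions of the degree sequence and of the classes `P(G)` and `D(G)`
are in `Pool.Agent.Q102.DSFBasic`.
-/

set_option autoImplicit false

open SimpleGraph Finset

namespace Pool.Agent.Results.MP_a83c81_co.InfiniteDG

open Pool.Agent.Q102.DSF

theorem result : ∃ (U : Type) (_ : Finite U) (G : SimpleGraph U) (W : ℕ → Type)
    (_ : ∀ n, Finite (W n)) (H : ∀ n, SimpleGraph (W n)),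
    (∀ n, InD G (H n)) ∧ ∀ i j, i ≠ j → IsEmpty (H i ≃g H j) := by
  refine ⟨VV 0, inferInstance, GG, VV, fun _ => inferInstance, HH, inD_HH, fun i j hij => ?_⟩
  refine ⟨fun e => hij ?_⟩
  have h := Fintype.card_congr e.toEquiv
  simp only [Fintype.card_sum, Fintype.card_fin] at h
  omega

end Pool.Agent.Results.MP_a83c81_co.InfiniteDG
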